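import Mathlib

namespace Pool.Agent.Results.MP_e86704_lc.UncountablyManyRealizable

open Cardinal Set

/-- `(A, B)` is a cut of the chain `T`: both parts are nonempty, `A` lies below `B`, `A` has no
largest element, `B` has no smallest element, and `T` is `A ∪ B` or `A ∪ {r} ∪ B` for a single
element `r` lying between `A` and `B`. -/
structure IsCut {T : Type} [LinearOrder T] (A B : Set T) : Prop where
  left_nonempty : A.Nonempty
  right_nonempty : B.Nonempty
  lt : ∀ a ∈ A, ∀ b ∈ B, a < b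
  no_max : ∀ a ∈ A, ∃ a' ∈ A, a < a'
  no_min : ∀ b ∈ B, ∃ b' ∈ B, b' < b
  cover : A ∪ B = Set.univ ∨
    ∃ r : T, (∀ a ∈ A, a < r) ∧ (∀ b ∈ B, r < b) ∧ A ∪ {r} ∪ B = Set.univ

/-- The set of characters of all cuts of `T`: the pairs `(α, β)` of ordinals such that some cut
`(A, B)` of `T` has cofinality of `A` equal to `ℵ_ α` and coinitiality of `B` equal to `ℵ_ β`. -/
def cutCharacters (T : Type) [LinearOrder T] : Set (Ordinal.{0} × Ordinal.{0}) :=
  {p | ∃ A B : Set T, IsCut A B ∧ Order.cof A = ℵ_ p.1 ∧ Order.cof (OrderDual B) = ℵ_ p.2}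

/-- Any two nondegenerate closed bounded intervals of `T` are order-isomorphic. -/
def TwoHomogeneous (T : Type) [LinearOrder T] : Prop :=
  ∀ a b c d : T, a < b → c < d → Nonempty (Set.Icc a b ≃o Set.Icc c d)

/-- `C` is realizable with respect to `X`: some 2-homogeneous dense chain `T` satisfies
`C(T) ∩ X² = C`. -/
def Realizable (X : Set Ordinal.{0}) (C : Set (Ordinal.{0} × Ordinal.{0})) : Prop :=
  ∃ (T : Type) (_ : LinearOrder T), Nontrivial T ∧ DenselyOrdered T ∧ TwoHomogeneous T ∧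
    cutCharacters T ∩ X ×ˢ X = C

theorem cof_eq_of_maps {X I : Type} [LinearOrder X] [LinearOrder I]
    (hI : ∀ i : I, ∃ j : I, i < j) (ρ : X → I) (a : I → X)
    (h : ∀ x i, ρ x < i → x < a i) : Order.cof X = Order.cof I := by
  apply le_antisymm
  · obtain ⟨S, hS, hS'⟩ := Order.exists_cof_eq I
    rw [← hS']
    refine (Order.cof_le (s := a '' S) ?_).trans mk_image_le
    intro x
    obtain ⟨j, hj⟩ := hI (ρ x)
    obtain ⟨i, hi, hji⟩ := hS j
    exact ⟨a i, ⟨i, hi, rfl⟩, (h x i (hj.trans_le hji)).le⟩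
  · obtain ⟨S, hS, hS'⟩ := Order.exists_cof_eq X
    rw [← hS']
    refine (Order.cof_le (s := ρ '' S) ?_).trans mk_image_le
    intro i
    obtain ⟨x, hx, hix⟩ := hS (a i)
    refine ⟨ρ x, ⟨x, hx, rfl⟩, ?_⟩
    by_contra hlt
    exact absurd (h x i (not_le.mp hlt)) (not_lt.mpr hix)

theorem cof_eq_of_small_segments {I : Type} [LinearOrder I] {c : Cardinal.{0}} (hc : c.IsRegular)
    (P : Set I) (hP : c ≤ #P) (hs : ∀ i : I, #(P ∩ Set.Iic i : Set I) < c) :
    Order.cof I = c := by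
  obtain ⟨Q, hQP, hQ⟩ := Cardinal.le_mk_iff_exists_subset.mp hP
  have hsQ : ∀ i : I, #(Q ∩ Set.Iic i : Set I) < c := fun i =>
    (Cardinal.mk_le_mk_of_subset (Set.inter_subset_inter_left _ hQP)).trans_lt (hs i)
  apply le_antisymm
  · rw [← hQ]
    apply Order.cof_le
    intro i
    by_contra hcon
    push Not at hcon
    have : Q ∩ Set.Iic i = Q := by
      apply Set.inter_eq_left.mpr
      intro x hx
      exact (hcon x hx).le
    have h2 := hsQ i
    rw [this, hQ] at h2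
    exact lt_irrefl _ h2
  · rw [Order.le_cof_iff]
    intro S hS
    by_contra hlt
    push Not at hlt
    have hcov : Q ⊆ ⋃ i ∈ S, (Q ∩ Set.Iic i) := by
      intro x hx
      obtain ⟨i, hi, hxi⟩ := hS x
      simp only [Set.mem_iUnion]
      exact ⟨i, hi, hx, hxi⟩
    have h3 : #(⋃ i ∈ S, (Q ∩ Set.Iic i) : Set I) < c := by
      rw [Cardinal.card_biUnion_lt_iff_forall_of_isRegular hc hlt]
      intro i _
      exact hsQ i
    have h4 := (Cardinal.mk_le_mk_of_subset hcov).trans_lt h3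
    rw [hQ] at h4
    exact lt_irrefl _ h4


theorem exists_index : ∃ (Λ : Type) (_ : LinearOrder Λ), WellFoundedLT Λ ∧ Nonempty Λ ∧
    (∀ n : ℕ, ℵ_ (n : Ordinal.{0}) < Order.cof Λ) ∧
    (∀ α β : Λ, Nonempty (Set.Ioi α ≃o Set.Ioi β)) := by
  have hreg : (Order.succ (ℵ_ Ordinal.omega0)).IsRegular :=
    isRegular_succ (aleph0_le_aleph _)
  set κ : Cardinal.{0} := Order.succ (ℵ_ Ordinal.omega0) with hκ
  have hne : κ.ord ≠ 0 := by
    intro h
    have := hreg.ord_pos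
    rw [h] at this
    exact lt_irrefl _ this
  have hcof : Order.cof κ.ord.ToType = κ := by
    rw [Ordinal.cof_toType, hreg.cof_ord]
  have hcard : #κ.ord.ToType = κ := by simp
  refine ⟨κ.ord.ToType, inferInstance, inferInstance, ?_, ?_, ?_⟩
  · rw [← mk_ne_zero_iff, hcard]
    exact hreg.ne_zero
  · intro n
    rw [hcof]
    refine lt_of_lt_of_le ?_ (Order.le_succ _)
    rw [aleph_lt_aleph]
    exact Ordinal.natCast_lt_omega0 n
  · have key : ∀ α : κ.ord.ToType, Ordinal.type (α := Set.Ioi α) (· < ·) = κ.ord := by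
      intro α
      apply le_antisymm
      · have : Ordinal.type (α := Set.Ioi α) (· < ·) ≤ Ordinal.type (α := κ.ord.ToType) (· < ·) := by
          apply Ordinal.type_le_iff'.mpr
          exact ⟨(OrderEmbedding.subtype _).ltEmbedding⟩
        simpa using this
      · rw [Cardinal.ord_le, Ordinal.card_type]
        by_contra hlt
        push Not at hlt
        have h1 : #(Set.Iio α) < κ := by simpa using mk_Iio_lt α
        have h2 : (Set.univ : Set κ.ord.ToType) ⊆ Set.Ioi α ∪ (insert α (Set.Iio α)) := by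
          intro x _
          rcases lt_trichotomy x α with h | h | h
          · right; right; exact h
          · right; left; exact h
          · left; exact h
        have h3 := (Cardinal.mk_le_mk_of_subset h2).trans (Cardinal.mk_union_le _ _)
        rw [mk_univ, hcard] at h3
        have h4 : #(insert α (Set.Iio α) : Set _) < κ :=
          (Cardinal.mk_insert_le).trans_lt (add_lt_of_lt hreg.1 h1
            (lt_of_lt_of_le one_lt_aleph0 hreg.1))
        exact absurd h3 (not_le.mpr (add_lt_of_lt hreg.1 hlt h4))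
    intro α β
    have := (key α).trans (key β).symm
    rw [Ordinal.type_eq] at this
    obtain ⟨e⟩ := this
    exact ⟨OrderIso.ofRelIsoLT e⟩


noncomputable def pr (n : ℕ) : ℕ := Nat.nth Nat.Prime n

theorem pr_prime (n : ℕ) : (pr n).Prime := Nat.nth_mem_of_infinite Nat.infinite_setOfPred_prime n

theorem pr_injective : Function.Injective pr := Nat.nth_injective Nat.infinite_setOfPred_prime

variable {Λ : Type}

def bad (n : ℕ) (f : Λ → ℚ) : Set Λ := {ξ | pr n ∣ (f ξ).den}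

def Small (D : Set ℕ) (f : Λ → ℚ) : Prop := ∀ n ∈ D, #(bad n f) < ℵ_ (n : Ordinal.{0})

theorem not_dvd_one (n : ℕ) : ¬ pr n ∣ 1 := (pr_prime n).one_lt.ne' ∘ Nat.dvd_one.mp

theorem Small.mono {D : Set ℕ} {f g : Λ → ℚ} (hg : Small D g)
    (h : ∀ n ∈ D, bad n f ⊆ bad n g) : Small D f :=
  fun n hn => (Cardinal.mk_le_mk_of_subset (h n hn)).trans_lt (hg n hn)

theorem Small.of_union {D : Set ℕ} {f g h : Λ → ℚ} (hf : Small D f) (hg : Small D g)
    (hh : ∀ n ∈ D, bad n h ⊆ bad n f ∪ bad n g) : Small D h :=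
  fun n hn => (Cardinal.mk_le_mk_of_subset (hh n hn)).trans_lt
    ((Cardinal.mk_union_le _ _).trans_lt (add_lt_of_lt (aleph0_le_aleph _) (hf n hn) (hg n hn)))

theorem Small.zero {D : Set ℕ} : Small D (fun _ : Λ => (0 : ℚ)) := by
  intro n _
  have : bad n (fun _ : Λ => (0 : ℚ)) = ∅ := by
    ext ξ
    simp only [bad, Set.mem_ofPred_eq, Rat.den_ofNat, Set.mem_empty_iff_false, iff_false]
    exact not_dvd_one n
  rw [this, mk_eq_zero]
  exact aleph_pos _

theorem Small.add {D : Set ℕ} {f g : Λ → ℚ} (hf : Small D f) (hg : Small D g) :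
    Small D (fun ξ => f ξ + g ξ) := by
  refine hf.of_union hg ?_
  intro n _ ξ hξ
  have h1 : pr n ∣ (f ξ).den * (g ξ).den := dvd_trans hξ (Rat.add_den_dvd _ _)
  exact (pr_prime n).dvd_mul.mp h1

theorem Small.neg {D : Set ℕ} {f : Λ → ℚ} (hf : Small D f) : Small D (fun ξ => - f ξ) := by
  refine hf.mono ?_
  intro n _ ξ hξ
  simpa [bad] using hξ

theorem Small.sub {D : Set ℕ} {f g : Λ → ℚ} (hf : Small D f) (hg : Small D g) :
    Small D (fun ξ => f ξ - g ξ) := by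
  simpa [sub_eq_add_neg] using hf.add hg.neg

theorem Small.ite {D : Set ℕ} {f g : Λ → ℚ} (p : Λ → Prop) [DecidablePred p]
    (hf : Small D f) (hg : Small D g) : Small D (fun ξ => if p ξ then f ξ else g ξ) := by
  refine hf.of_union hg ?_
  intro n _ ξ hξ
  by_cases h : p ξ
  · left
    simpa [bad, h] using hξ
  · right
    simpa [bad, h] using hξ

theorem Small.update [DecidableEq Λ] {D : Set ℕ} {f : Λ → ℚ} (hf : Small D f) (i : Λ) (q : ℚ) :
    Small D (Function.update f i q) := by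
  intro n hn
  have h1 : bad n (Function.update f i q) ⊆ insert i (bad n f) := by
    intro ξ hξ
    by_cases h : ξ = i
    · left; exact h
    · right
      simpa [bad, h] using hξ
  exact (Cardinal.mk_le_mk_of_subset h1).trans_lt (Cardinal.mk_insert_le.trans_lt
    (add_lt_of_lt (aleph0_le_aleph _) (hf n hn) (one_lt_aleph0.trans_le (aleph0_le_aleph _))))

theorem Small.reindex {D : Set ℕ} {z : Λ → ℚ} (hz : Small D z) (s : Set Λ) (e : s → Λ)
    (he : Function.Injective e) [DecidablePred (· ∈ s)] :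
    Small D (fun ξ => if h : ξ ∈ s then z (e ⟨ξ, h⟩) else 0) := by
  intro n hn
  refine lt_of_le_of_lt ?_ (hz n hn)
  have hmem : ∀ ξ ∈ bad n (fun ξ => if h : ξ ∈ s then z (e ⟨ξ, h⟩) else 0),
      ∃ h : ξ ∈ s, e ⟨ξ, h⟩ ∈ bad n z := by
    intro ξ hξ
    by_cases h : ξ ∈ s
    · refine ⟨h, ?_⟩
      simpa [bad, h] using hξ
    · exfalso
      simp only [bad, Set.mem_ofPred_eq, h, dite_false, Rat.den_ofNat] at hξ
      exact not_dvd_one n hξ
  choose h1 h2 using hmem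
  refine Cardinal.mk_le_of_injective (f := fun x => (⟨e ⟨x.1, h1 x.1 x.2⟩, h2 x.1 x.2⟩ : bad n z)) ?_
  intro x y hxy
  have h3 := he (Subtype.ext_iff.mp hxy)
  exact Subtype.ext (by simpa using h3)


variable [LinearOrder Λ] [WellFoundedLT Λ]

variable (Λ) in
def T (D : Set ℕ) : Type := {f : Lex (Λ → ℚ) // Small D (ofLex f)}

noncomputable instance (D : Set ℕ) : LinearOrder (T Λ D) :=
  inferInstanceAs (LinearOrder {f : Lex (Λ → ℚ) // Small D (ofLex f)})

variable {D : Set ℕ}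

def T.fn (x : T Λ D) : Λ → ℚ := ofLex x.1

def T.mk (f : Λ → ℚ) (hf : Small D f) : T Λ D := ⟨toLex f, hf⟩

theorem T.fn_mk (f : Λ → ℚ) (hf : Small D f) : (T.mk f hf).fn = f := rfl

theorem T.small (x : T Λ D) : Small D x.fn := x.2

theorem T.ext {x y : T Λ D} (h : x.fn = y.fn) : x = y := Subtype.ext h

theorem T.lt_iff {x y : T Λ D} :
    x < y ↔ ∃ i, (∀ j < i, x.fn j = y.fn j) ∧ x.fn i < y.fn i := Iff.rfl

theorem exists_first {f g : Λ → ℚ} (h : f ≠ g) : ∃ i, (∀ j < i, f j = g j) ∧ f i ≠ g i := by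
  have h1 : {i | f i ≠ g i}.Nonempty := Function.ne_iff.mp h
  refine ⟨wellFounded_lt.min _ h1, ?_, wellFounded_lt.min_mem _ h1⟩
  intro j hj
  by_contra hne
  exact wellFounded_lt.not_lt_min {i | f i ≠ g i} hne hj

theorem T.dense [NoMaxOrder Λ] (x y : T Λ D) (h : x < y) : ∃ z, x < z ∧ z < y := by
  classical
  obtain ⟨i, hi, hi'⟩ := T.lt_iff.mp h
  obtain ⟨k, hk⟩ := exists_gt i
  refine ⟨T.mk (Function.update x.fn k (x.fn k + 1)) (x.small.update _ _), ?_, ?_⟩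
  · rw [T.lt_iff]
    refine ⟨k, ?_, ?_⟩
    · intro j hj
      rw [T.fn_mk, Function.update_of_ne hj.ne]
    · rw [T.fn_mk, Function.update_self]
      linarith
  · rw [T.lt_iff]
    refine ⟨i, ?_, ?_⟩
    · intro j hj
      rw [T.fn_mk, Function.update_of_ne (hj.trans hk).ne]
      exact hi j hj
    · rw [T.fn_mk, Function.update_of_ne hk.ne]
      exact hi'


theorem exists_first_below {f g : Λ → ℚ} {α : Λ} (h : ¬ ∀ j < α, f j = g j) :
    ∃ i < α, (∀ j < i, f j = g j) ∧ f i ≠ g i := by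
  push Not at h
  obtain ⟨j₀, hj₀, hne⟩ := h
  obtain ⟨i, hi, hi'⟩ := exists_first (f := f) (g := g) (fun h => hne (by rw [h]))
  refine ⟨i, ?_, hi, hi'⟩
  by_contra hle
  exact hne (hi j₀ (hj₀.trans_le (not_lt.mp hle)))

theorem agree_of_between {α : Λ} {a b z : T Λ D} (hab : ∀ j < α, a.fn j = b.fn j)
    (haz : a ≤ z) (hzb : z ≤ b) : ∀ j < α, z.fn j = a.fn j := by
  by_contra hcon
  obtain ⟨i, hiα, hi, hne⟩ := exists_first_below hcon
  rcases lt_or_gt_of_ne hne with h | h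
  · exact absurd (T.lt_iff.mpr ⟨i, hi, h⟩) (not_lt.mpr haz)
  · refine absurd (T.lt_iff.mpr ⟨i, ?_, ?_⟩) (not_lt.mpr hzb)
    · intro j hj
      rw [hi j hj]
      exact (hab j (hj.trans hiα)).symm
    · rw [← hab i hiα]
      exact h

open Classical in
noncomputable def shift (α γ : Λ) (e : Set.Ioi γ → Set.Ioi α) (σ : ℚ → ℚ) (k : ℚ → Λ → ℚ)
    (c z : Λ → ℚ) : Λ → ℚ :=
  Function.update (fun ξ => if h : γ < ξ then z (e ⟨ξ, h⟩) + k (z α) ξ else c ξ) γ (σ (z α))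

section shift

variable {α γ : Λ}

theorem shift_at (e : Set.Ioi γ → Set.Ioi α) (σ : ℚ → ℚ) (k : ℚ → Λ → ℚ)
    (c z : Λ → ℚ) : shift α γ e σ k c z γ = σ (z α) := by
  simp [shift]

theorem shift_above (e : Set.Ioi γ → Set.Ioi α) (σ : ℚ → ℚ) (k : ℚ → Λ → ℚ)
    (c z : Λ → ℚ) {ξ : Λ} (h : γ < ξ) :
    shift α γ e σ k c z ξ = z (e ⟨ξ, h⟩) + k (z α) ξ := by
  simp [shift, h, h.ne']

theorem shift_below (e : Set.Ioi γ → Set.Ioi α) (σ : ℚ → ℚ) (k : ℚ → Λ → ℚ)
    (c z : Λ → ℚ) {ξ : Λ} (h : ξ < γ) :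
    shift α γ e σ k c z ξ = c ξ := by
  simp [shift, h.not_gt, h.ne]

theorem shift_small (e : Set.Ioi γ → Set.Ioi α) (he : Function.Injective e) (σ : ℚ → ℚ)
    (k : ℚ → Λ → ℚ) (c z : Λ → ℚ) (hz : Small D z) (hk : ∀ t, Small D (k t)) (hc : Small D c) :
    Small D (shift α γ e σ k c z) := by
  classical
  have h1 : Small D (fun ξ => if h : ξ ∈ Set.Ioi γ then z (e ⟨ξ, h⟩) else 0) :=
    hz.reindex (Set.Ioi γ) (fun x => (e x : Λ)) (Subtype.val_injective.comp he)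
  have h2 := Small.ite (fun ξ => γ < ξ) (h1.add (hk (z α))) hc
  have h3 := h2.update γ (σ (z α))
  refine h3.mono ?_
  intro n _ ξ hξ
  rcases lt_trichotomy ξ γ with h | h | h
  · rw [bad, Set.mem_ofPred_eq, shift_below _ _ _ _ _ h] at hξ
    rw [bad, Set.mem_ofPred_eq, Function.update_of_ne h.ne, if_neg h.not_gt]
    exact hξ
  · subst h
    rw [bad, Set.mem_ofPred_eq, shift_at] at hξ
    rw [bad, Set.mem_ofPred_eq, Function.update_self]
    exact hξ
  · rw [bad, Set.mem_ofPred_eq, shift_above _ _ _ _ _ h] at hξ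
    rw [bad, Set.mem_ofPred_eq, Function.update_of_ne h.ne', if_pos h,
      dif_pos (show ξ ∈ Set.Ioi γ from h)]
    exact hξ

theorem shift_lt (e : Set.Ioi γ ≃o Set.Ioi α) {σ : ℚ → ℚ} (hσ : StrictMono σ) (k : ℚ → Λ → ℚ)
    (c : Λ → ℚ) {a z z' : Λ → ℚ} (hz : ∀ j < α, z j = a j) (hz' : ∀ j < α, z' j = a j)
    (h : ∃ i, (∀ j < i, z j = z' j) ∧ z i < z' i) :
    ∃ i, (∀ j < i, shift α γ e σ k c z j = shift α γ e σ k c z' j) ∧
      shift α γ e σ k c z i < shift α γ e σ k c z' i := by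
  obtain ⟨i, hi, hi'⟩ := h
  have hαi : α ≤ i := by
    by_contra hlt
    rw [not_le] at hlt
    rw [hz i hlt, hz' i hlt] at hi'
    exact lt_irrefl _ hi'
  rcases hαi.eq_or_lt with rfl | hαi
  · refine ⟨γ, ?_, ?_⟩
    · intro j hj
      rw [shift_below _ _ _ _ _ hj, shift_below _ _ _ _ _ hj]
    · rw [shift_at, shift_at]
      exact hσ hi'
  · have hα : z α = z' α := hi α hαi
    set ξ : Set.Ioi γ := e.symm ⟨i, hαi⟩ with hξ
    have hγξ : γ < (ξ : Λ) := ξ.2
    have heξ : e ξ = ⟨i, hαi⟩ := e.apply_symm_apply _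
    refine ⟨ξ, ?_, ?_⟩
    · intro j hj
      rcases lt_trichotomy j γ with h | h | h
      · rw [shift_below _ _ _ _ _ h, shift_below _ _ _ _ _ h]
      · subst h
        rw [shift_at, shift_at, hα]
      · rw [shift_above _ _ _ _ _ h, shift_above _ _ _ _ _ h, hα]
        congr 1
        apply hi
        have h5 : e ⟨j, h⟩ < e ξ := e.lt_iff_lt.mpr hj
        rw [heξ] at h5
        exact h5
    · rw [shift_above _ _ _ _ _ hγξ, shift_above _ _ _ _ _ hγξ, hα]
      have h6 : e ⟨(ξ : Λ), hγξ⟩ = ⟨i, hαi⟩ := heξ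
      rw [h6]
      simpa using hi'

open Classical in
noncomputable def backk (e : Set.Ioi γ ≃o Set.Ioi α) (σ : ℚ ≃o ℚ) (k : ℚ → Λ → ℚ) : ℚ → Λ → ℚ :=
  fun t η => if h : η ∈ Set.Ioi α then - k (σ.symm t) (e.symm ⟨η, h⟩) else 0

theorem backk_small (e : Set.Ioi γ ≃o Set.Ioi α) (σ : ℚ ≃o ℚ) (k : ℚ → Λ → ℚ)
    (hk : ∀ t, Small D (k t)) (t : ℚ) : Small D (backk e σ k t) := by
  classical
  have h1 := (hk (σ.symm t)).neg.reindex (Set.Ioi α) (fun x => (e.symm x : Λ))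
    (Subtype.val_injective.comp e.symm.injective)
  exact h1.mono (fun n _ ξ hξ => hξ)

theorem shift_back (e : Set.Ioi γ ≃o Set.Ioi α) (σ : ℚ ≃o ℚ) (k : ℚ → Λ → ℚ) (a c w : Λ → ℚ)
    (hw : ∀ j < γ, w j = c j) :
    shift α γ e σ k c (shift γ α e.symm σ.symm (backk e σ k) a w) = w := by
  ext ξ
  rcases lt_trichotomy ξ γ with h | h | h
  · rw [shift_below _ _ _ _ _ h, hw ξ h]
  · subst h
    rw [shift_at, shift_at, σ.apply_symm_apply]
  · rw [shift_above _ _ _ _ _ h, shift_at]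
    have h1 : α < (e ⟨ξ, h⟩ : Λ) := (e ⟨ξ, h⟩).2
    rw [shift_above _ _ _ _ _ h1]
    have h2 : backk e σ k (w γ) (e ⟨ξ, h⟩) = - k (σ.symm (w γ)) ξ := by
      have h3 : ((e ⟨ξ, h⟩ : Set.Ioi α) : Λ) ∈ Set.Ioi α := (e ⟨ξ, h⟩).2
      simp only [backk, dif_pos h3]
      simp
    have h4 : e.symm ⟨((e ⟨ξ, h⟩ : Set.Ioi α) : Λ), h1⟩ = ⟨ξ, h⟩ := e.symm_apply_apply _
    rw [h2, h4]
    simp

end shift


theorem exists_affine {p q r s : ℚ} (h1 : p < q) (h2 : r < s) :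
    ∃ σ : ℚ ≃o ℚ, σ p = r ∧ σ q = s := by
  have hm : 0 < (s - r) / (q - p) := div_pos (sub_pos.mpr h2) (sub_pos.mpr h1)
  have hne : q - p ≠ 0 := (sub_pos.mpr h1).ne'
  refine ⟨(OrderIso.addRight (-p)).trans ((OrderIso.mulRight₀ _ hm).trans
    (OrderIso.addRight r)), ?_, ?_⟩
  · simp
  · simp only [OrderIso.trans_apply, OrderIso.addRight_apply, OrderIso.mulRight₀_apply]
    field_simp
    ring

theorem T.twoHomogeneous (hΛ : ∀ α β : Λ, Nonempty (Set.Ioi α ≃o Set.Ioi β))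
    (a b c d : T Λ D) (hab : a < b) (hcd : c < d) :
    Nonempty (Set.Icc a b ≃o Set.Icc c d) := by
  classical
  obtain ⟨α, hα, hα'⟩ := T.lt_iff.mp hab
  obtain ⟨γ, hγ, hγ'⟩ := T.lt_iff.mp hcd
  obtain ⟨e⟩ := hΛ γ α
  obtain ⟨σ, hσa, hσb⟩ := exists_affine hα' hγ'
  have hinj : Function.Injective (fun x : Set.Ioi γ => (e x : Λ)) :=
    Subtype.val_injective.comp e.injective
  set k : ℚ → Λ → ℚ := fun t ξ =>
    if t = a.fn α then c.fn ξ - (if h : ξ ∈ Set.Ioi γ then a.fn (e ⟨ξ, h⟩) else 0)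
    else if t = b.fn α then d.fn ξ - (if h : ξ ∈ Set.Ioi γ then b.fn (e ⟨ξ, h⟩) else 0)
    else 0 with hkdef
  have hk : ∀ t, Small D (k t) := by
    intro t
    have h1 := c.small.sub (a.small.reindex (Set.Ioi γ) (fun x => (e x : Λ)) hinj)
    have h2 := d.small.sub (b.small.reindex (Set.Ioi γ) (fun x => (e x : Λ)) hinj)
    exact Small.ite (fun _ => t = a.fn α) h1 (Small.ite (fun _ => t = b.fn α) h2 Small.zero)
  let Φ : T Λ D → T Λ D := fun z =>
    T.mk (shift α γ e σ k c.fn z.fn) (shift_small e e.injective σ k c.fn z.fn z.small hk c.small)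
  have hΦ : ∀ z, (Φ z).fn = shift α γ e σ k c.fn z.fn := fun z => rfl
  have hΦa : Φ a = c := by
    apply T.ext
    rw [hΦ]
    ext ξ
    rcases lt_trichotomy ξ γ with h | h | h
    · rw [shift_below _ _ _ _ _ h]
    · subst h
      rw [shift_at, hσa]
    · rw [shift_above _ _ _ _ _ h]
      simp only [hkdef, if_true, dif_pos (show ξ ∈ Set.Ioi γ from h)]
      ring
  have hΦb : Φ b = d := by
    apply T.ext
    rw [hΦ]
    ext ξ
    rcases lt_trichotomy ξ γ with h | h | h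
    · rw [shift_below _ _ _ _ _ h]
      exact hγ ξ h
    · subst h
      rw [shift_at, hσb]
    · rw [shift_above _ _ _ _ _ h]
      simp only [hkdef, if_neg hα'.ne', if_true, dif_pos (show ξ ∈ Set.Ioi γ from h)]
      ring
  have hΦlt : ∀ z z' : T Λ D, (∀ j < α, z.fn j = a.fn j) → (∀ j < α, z'.fn j = a.fn j) →
      z < z' → Φ z < Φ z' := by
    intro z z' hz hz' hlt
    exact T.lt_iff.mpr (shift_lt e σ.strictMono k c.fn hz hz' (T.lt_iff.mp hlt))
  have haa : ∀ j < α, a.fn j = a.fn j := fun _ _ => rfl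
  have hbb : ∀ j < α, b.fn j = a.fn j := fun j hj => (hα j hj).symm
  have hmem : ∀ z ∈ Set.Icc a b, Φ z ∈ Set.Icc c d := by
    intro z hz
    have hzz := agree_of_between hα hz.1 hz.2
    constructor
    · rcases hz.1.eq_or_lt with h | h
      · rw [← h, hΦa]
      · rw [← hΦa]
        exact (hΦlt a z haa hzz h).le
    · rcases hz.2.eq_or_lt with h | h
      · rw [h, hΦb]
      · rw [← hΦb]
        exact (hΦlt z b hzz hbb h).le
  let F : Set.Icc a b → Set.Icc c d := fun z => ⟨Φ z.1, hmem z.1 z.2⟩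
  have hF : StrictMono F := by
    intro z z' hlt
    exact hΦlt z.1 z'.1 (agree_of_between hα z.2.1 z.2.2) (agree_of_between hα z'.2.1 z'.2.2) hlt
  have hsurj : Function.Surjective F := by
    intro w
    have hw : ∀ j < γ, w.1.fn j = c.fn j := agree_of_between hγ w.2.1 w.2.2
    let z : T Λ D := T.mk (shift γ α e.symm σ.symm (backk e σ k) a.fn w.1.fn)
      (shift_small e.symm e.symm.injective σ.symm (backk e σ k) a.fn w.1.fn w.1.small
        (backk_small e σ k hk) a.small)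
    have hzfn : z.fn = shift γ α e.symm σ.symm (backk e σ k) a.fn w.1.fn := rfl
    have hzz : ∀ j < α, z.fn j = a.fn j := by
      intro j hj
      rw [hzfn, shift_below _ _ _ _ _ hj]
    have hΦz : Φ z = w.1 := by
      apply T.ext
      rw [hΦ, hzfn]
      exact shift_back e σ k a.fn c.fn w.1.fn hw
    have hz : z ∈ Set.Icc a b := by
      constructor
      · by_contra hlt
        rw [not_le] at hlt
        have h1 := hΦlt z a hzz haa hlt
        rw [hΦz, hΦa] at h1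
        exact absurd h1 (not_lt.mpr w.2.1)
      · by_contra hlt
        rw [not_le] at hlt
        have h1 := hΦlt b z hbb hzz hlt
        rw [hΦz, hΦb] at h1
        exact absurd h1 (not_lt.mpr w.2.2)
    exact ⟨⟨z, hz⟩, Subtype.ext hΦz⟩
  exact ⟨hF.orderIsoOfSurjective F hsurj⟩



theorem exists_gt_of_small_segments {I : Type} [LinearOrder I] {c : Cardinal.{0}}
    (P : Set I) (hP : c ≤ #P) (hs : ∀ i : I, #(P ∩ Set.Iic i : Set I) < c) :
    ∀ i : I, ∃ j : I, i < j := by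
  intro i
  by_contra hcon
  push Not at hcon
  have : P ∩ Set.Iic i = P := Set.inter_eq_left.mpr (fun x _ => hcon x)
  have h2 := hs i
  rw [this] at h2
  exact absurd hP (not_le.mpr h2)

theorem cof_subset {I : Set Λ} {c : Cardinal.{0}} (hc : c.IsRegular)
    (P : Set Λ) (hPI : P ⊆ I) (hP : c ≤ #P) (hs : ∀ i ∈ I, #(P ∩ Set.Iic i : Set Λ) < c) :
    Order.cof I = c ∧ ∀ i : I, ∃ j : I, i < j := by
  set Q : Set I := Subtype.val ⁻¹' P with hQ
  have h1 : #Q = #P := by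
    apply Cardinal.mk_preimage_of_injective_of_subset_range _ _ Subtype.val_injective
    rw [Subtype.range_val]
    exact hPI
  have h2 : ∀ i : I, #(Q ∩ Set.Iic i : Set I) < c := by
    intro i
    refine lt_of_le_of_lt ?_ (hs i.1 i.2)
    have h3 : (Q ∩ Set.Iic i : Set I) = Subtype.val ⁻¹' (P ∩ Set.Iic i.1) := by
      ext x
      simp [hQ]
    rw [h3]
    exact Cardinal.mk_preimage_of_injective _ _ Subtype.val_injective
  exact ⟨cof_eq_of_small_segments hc Q (hP.trans_eq h1.symm) h2,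
    exists_gt_of_small_segments Q (hP.trans_eq h1.symm) h2⟩

theorem isRegular_aleph_nat (n : ℕ) : (ℵ_ (n : Ordinal.{0})).IsRegular := by
  cases n with
  | zero => simpa using isRegular_aleph0
  | succ m =>
    have := isRegular_aleph_add_one (m : Ordinal.{0})
    simpa using this

theorem exists_segment (hΛ : ∀ n : ℕ, ℵ_ (n : Ordinal.{0}) < Order.cof Λ) (n : ℕ) :
    ∃ δ : Λ, ℵ_ (n : Ordinal.{0}) ≤ #(Set.Iio δ) ∧
      ∀ η < δ, #(Set.Iio η) < ℵ_ (n : Ordinal.{0}) := by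
  have h1 : ℵ_ (n : Ordinal.{0}) ≤ #Λ := (hΛ n).le.trans (Order.cof_le_cardinalMk Λ)
  obtain ⟨P, hP⟩ := Cardinal.le_mk_iff_exists_set.mp h1
  have h2 : ¬ IsCofinal P := by
    intro h
    have := Order.cof_le h
    rw [hP] at this
    exact absurd (hΛ n) (not_lt.mpr this)
  rw [not_isCofinal_iff] at h2
  obtain ⟨x, hx⟩ := h2
  have h3 : {δ : Λ | ℵ_ (n : Ordinal.{0}) ≤ #(Set.Iio δ)}.Nonempty := by
    refine ⟨x, ?_⟩
    rw [Set.mem_ofPred_eq, ← hP]
    exact Cardinal.mk_le_mk_of_subset (fun y hy => hx y hy)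
  refine ⟨wellFounded_lt.min _ h3, wellFounded_lt.min_mem _ h3, ?_⟩
  intro η hη
  by_contra hcon
  exact wellFounded_lt.not_lt_min {δ : Λ | ℵ_ (n : Ordinal.{0}) ≤ #(Set.Iio δ)}
    (not_lt.mp hcon) hη

theorem mk_Iic_lt {c : Cardinal.{0}} (hc : ℵ₀ ≤ c) {η : Λ} (h : #(Set.Iio η) < c) :
    #(Set.Iic η) < c := by
  have h1 : Set.Iic η ⊆ insert η (Set.Iio η) := by
    intro x hx
    rcases (Set.mem_Iic.mp hx).eq_or_lt with h | h
    · left; exact h
    · right; exact h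
  exact (Cardinal.mk_le_mk_of_subset h1).trans_lt (Cardinal.mk_insert_le.trans_lt
    (add_lt_of_lt hc h (one_lt_aleph0.trans_le hc)))


theorem den_inv_pr (n : ℕ) : ((pr n : ℚ)⁻¹).den = pr n := by
  rw [Rat.inv_natCast_den]
  simp [(pr_prime n).ne_zero]

open Classical in
noncomputable def wit (n : ℕ) (δ : Λ) (v : ℚ) : Λ → ℚ :=
  fun ξ => if ξ < δ then (pr n : ℚ)⁻¹ else v

theorem bad_wit (m n : ℕ) (δ : Λ) (v : ℚ) (hv : v.den = 1) {ξ : Λ}
    (h : ξ ∈ bad m (wit n δ v)) : m = n ∧ ξ < δ := by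
  by_cases hξ : ξ < δ
  · refine ⟨?_, hξ⟩
    rw [bad, Set.mem_ofPred_eq, wit, if_pos hξ, den_inv_pr] at h
    exact pr_injective ((Nat.prime_dvd_prime_iff_eq (pr_prime m) (pr_prime n)).mp h)
  · exfalso
    rw [bad, Set.mem_ofPred_eq, wit, if_neg hξ, hv] at h
    exact not_dvd_one m h

theorem wit_small (n : ℕ) (δ : Λ) (v : ℚ) (hv : v.den = 1)
    (hδ : #(Set.Iio δ) < ℵ_ (n : Ordinal.{0})) : Small D (wit n δ v) := by
  intro m _
  by_cases hmn : m = n
  · subst hmn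
    exact (Cardinal.mk_le_mk_of_subset (fun ξ hξ => (bad_wit m m δ v hv hξ).2)).trans_lt hδ
  · have : bad m (wit n δ v) = ∅ := by
      ext ξ
      simp only [Set.mem_empty_iff_false, iff_false]
      exact fun h => hmn (bad_wit m n δ v hv h).1
    rw [this, mk_eq_zero]
    exact aleph_pos _

theorem diag_of_mem (hΛ : ∀ n : ℕ, ℵ_ (n : Ordinal.{0}) < Order.cof Λ) {n : ℕ} (hn : n ∈ D) :
    ((n : Ordinal.{0}), (n : Ordinal.{0})) ∈ cutCharacters (T Λ D) := by
  obtain ⟨δ, hδ, hδmin⟩ := exists_segment hΛ n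
  have hcof := cof_subset (I := Set.Iio δ) (isRegular_aleph_nat n) (Set.Iio δ) subset_rfl hδ
    (fun i hi => lt_of_le_of_lt (Cardinal.mk_le_mk_of_subset Set.inter_subset_right)
      (mk_Iic_lt (aleph0_le_aleph _) (hδmin i hi)))
  set s : Λ → ℚ := wit n δ 0 with hs
  have hinvpos : (0 : ℚ) < (pr n : ℚ)⁻¹ := by
    have := (pr_prime n).pos
    positivity
  have hinvlt : (pr n : ℚ)⁻¹ < 1 := by
    apply inv_lt_one_of_one_lt₀
    exact_mod_cast (pr_prime n).one_lt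
  have hsbelow : ∀ ξ < δ, s ξ = (pr n : ℚ)⁻¹ := fun ξ h => by rw [hs, wit, if_pos h]
  -- any element of the chain leaves s below δ
  have hleave : ∀ x : T Λ D, ∀ i, (∀ j < i, x.fn j = s j) → x.fn i ≠ s i → i < δ := by
    intro x i hi hne
    by_contra hcon
    rw [not_lt] at hcon
    have h1 : Set.Iio δ ⊆ bad n x.fn := by
      intro ξ hξ
      rw [bad, Set.mem_ofPred_eq, hi ξ (lt_of_lt_of_le hξ hcon), hsbelow ξ hξ, den_inv_pr]
    have h2 := (Cardinal.mk_le_mk_of_subset h1).trans_lt (x.small n hn)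
    exact absurd hδ (not_le.mpr h2)
  have hne : ∀ x : T Λ D, x.fn ≠ s := by
    intro x h
    have h1 : Set.Iio δ ⊆ bad n x.fn := by
      intro ξ hξ
      rw [bad, Set.mem_ofPred_eq, h, hsbelow ξ hξ, den_inv_pr]
    have h2 := (Cardinal.mk_le_mk_of_subset h1).trans_lt (x.small n hn)
    exact absurd hδ (not_le.mpr h2)
  set A : Set (T Λ D) := {x | ∃ i < δ, (∀ j < i, x.fn j = s j) ∧ x.fn i < s i} with hA
  set B : Set (T Λ D) := {x | ∃ i < δ, (∀ j < i, x.fn j = s j) ∧ s i < x.fn i} with hB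
  let lo : Set.Iio δ → T Λ D := fun ξ =>
    T.mk (wit n ξ.1 0) (wit_small n ξ.1 0 rfl (hδmin ξ.1 ξ.2))
  let hi : Set.Iio δ → T Λ D := fun ξ =>
    T.mk (wit n ξ.1 1) (wit_small n ξ.1 1 rfl (hδmin ξ.1 ξ.2))
  have hlo : ∀ ξ, lo ξ ∈ A := by
    intro ξ
    refine ⟨ξ.1, ξ.2, ?_, ?_⟩
    · intro j hj
      rw [hsbelow j (lt_trans hj ξ.2)]
      simp only [lo, T.fn_mk, wit, if_pos hj]
    · rw [hsbelow _ ξ.2]
      simp only [lo, T.fn_mk, wit, lt_irrefl, if_false]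
      exact hinvpos
  have hhi : ∀ ξ, hi ξ ∈ B := by
    intro ξ
    refine ⟨ξ.1, ξ.2, ?_, ?_⟩
    · intro j hj
      rw [hsbelow j (lt_trans hj ξ.2)]
      simp only [hi, T.fn_mk, wit, if_pos hj]
    · rw [hsbelow _ ξ.2]
      simp only [hi, T.fn_mk, wit, lt_irrefl, if_false]
      exact hinvlt
  have hlt_lo : ∀ (x : T Λ D) (i : Λ), (∀ j < i, x.fn j = s j) → x.fn i < s i →
      ∀ ξ : Set.Iio δ, i < ξ.1 → x < lo ξ := by
    intro x i h1 h2 ξ hξ
    refine T.lt_iff.mpr ⟨i, ?_, ?_⟩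
    · intro j hj
      rw [h1 j hj, hsbelow j (hj.trans (hξ.trans ξ.2))]
      simp only [lo, T.fn_mk, wit, if_pos (hj.trans hξ)]
    · rw [hsbelow i (hξ.trans ξ.2)] at h2
      simp only [lo, T.fn_mk, wit, if_pos hξ]
      exact h2
  have hhi_lt : ∀ (x : T Λ D) (i : Λ), (∀ j < i, x.fn j = s j) → s i < x.fn i →
      ∀ ξ : Set.Iio δ, i < ξ.1 → hi ξ < x := by
    intro x i h1 h2 ξ hξ
    refine T.lt_iff.mpr ⟨i, ?_, ?_⟩
    · intro j hj
      rw [h1 j hj, hsbelow j (hj.trans (hξ.trans ξ.2))]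
      simp only [hi, T.fn_mk, wit, if_pos (hj.trans hξ)]
    · rw [hsbelow i (hξ.trans ξ.2)] at h2
      simp only [hi, T.fn_mk, wit, if_pos hξ]
      exact h2
  have hδne : Nonempty (Set.Iio δ) := by
    rw [← mk_ne_zero_iff]
    exact (lt_of_lt_of_le (aleph_pos _) hδ).ne'
  refine ⟨A, B, ⟨?_, ?_, ?_, ?_, ?_, ?_⟩, ?_, ?_⟩
  · exact ⟨lo hδne.some, hlo _⟩
  · exact ⟨hi hδne.some, hhi _⟩
  · rintro a ⟨i, _, hi1, hi2⟩ b ⟨j, _, hj1, hj2⟩
    rcases lt_trichotomy i j with h | h | h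
    · refine T.lt_iff.mpr ⟨i, ?_, ?_⟩
      · intro l hl
        rw [hi1 l hl, hj1 l (hl.trans h)]
      · rw [hj1 i h]
        exact hi2
    · subst h
      refine T.lt_iff.mpr ⟨i, ?_, hi2.trans hj2⟩
      intro l hl
      rw [hi1 l hl, hj1 l hl]
    · refine T.lt_iff.mpr ⟨j, ?_, ?_⟩
      · intro l hl
        rw [hi1 l (hl.trans h), hj1 l hl]
      · rw [hi1 j h]
        exact hj2
  · rintro a ⟨i, hiδ, hi1, hi2⟩
    obtain ⟨ξ, hξ⟩ := hcof.2 ⟨i, hiδ⟩
    exact ⟨lo ξ, hlo ξ, hlt_lo a i hi1 hi2 ξ hξ⟩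
  · rintro a ⟨i, hiδ, hi1, hi2⟩
    obtain ⟨ξ, hξ⟩ := hcof.2 ⟨i, hiδ⟩
    exact ⟨hi ξ, hhi ξ, hhi_lt a i hi1 hi2 ξ hξ⟩
  · left
    ext x
    simp only [Set.mem_union, Set.mem_univ, iff_true]
    obtain ⟨i, hi1, hi2⟩ := exists_first (hne x)
    have hiδ := hleave x i hi1 hi2
    rcases lt_or_gt_of_ne hi2 with h | h
    · left
      exact ⟨i, hiδ, hi1, h⟩
    · right
      exact ⟨i, hiδ, hi1, h⟩
  · have hρ : ∀ x : A, ∃ i : Set.Iio δ, (∀ j < i.1, x.1.fn j = s j) ∧ x.1.fn i < s i := by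
      rintro ⟨x, i, hiδ, h1, h2⟩
      exact ⟨⟨i, hiδ⟩, h1, h2⟩
    choose ρ hρ1 hρ2 using hρ
    rw [← hcof.1]
    refine cof_eq_of_maps hcof.2 ρ (fun ξ => ⟨lo ξ, hlo ξ⟩) ?_
    intro x ξ hξ
    exact hlt_lo x.1 (ρ x).1 (hρ1 x) (hρ2 x) ξ hξ
  · have hρ : ∀ x : Bᵒᵈ, ∃ i : Set.Iio δ, (∀ j < i.1, (OrderDual.ofDual x).1.fn j = s j) ∧
        s i < (OrderDual.ofDual x).1.fn i := by
      intro x
      obtain ⟨i, hiδ, h1, h2⟩ := (OrderDual.ofDual x).2
      exact ⟨⟨i, hiδ⟩, h1, h2⟩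
    choose ρ hρ1 hρ2 using hρ
    show Order.cof Bᵒᵈ = _
    rw [← hcof.1]
    refine cof_eq_of_maps hcof.2 ρ (fun ξ => OrderDual.toDual ⟨hi ξ, hhi ξ⟩) ?_
    intro x ξ hξ
    exact hhi_lt (OrderDual.ofDual x).1 (ρ x).1 (hρ1 x) (hρ2 x) ξ hξ


theorem exists_next [NoMaxOrder Λ] (δ : Λ) : ∃ ε, δ < ε ∧ ∀ j < ε, j ≤ δ := by
  have h : (Set.Ioi δ).Nonempty := exists_gt δ
  refine ⟨wellFounded_lt.min _ h, wellFounded_lt.min_mem _ h, ?_⟩
  intro j hj
  by_contra hcon
  exact wellFounded_lt.not_lt_min (Set.Ioi δ) (not_le.mp hcon) hj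

open Classical in
noncomputable def bump (f : T Λ D) (δ ε : Λ) (p : ℚ × ℚ) : T Λ D :=
  T.mk (Function.update (Function.update f.fn δ p.1) ε p.2)
    ((f.small.update δ p.1).update ε p.2)

theorem bump_below (f : T Λ D) {δ ε : Λ} (hδε : δ < ε) (p : ℚ × ℚ) {j : Λ} (hj : j < δ) :
    (bump f δ ε p).fn j = f.fn j := by
  rw [bump, T.fn_mk, Function.update_of_ne (hj.trans hδε).ne, Function.update_of_ne hj.ne]

theorem bump_mid (f : T Λ D) {δ ε : Λ} (hδε : δ < ε) (p : ℚ × ℚ) :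
    (bump f δ ε p).fn δ = p.1 := by
  rw [bump, T.fn_mk, Function.update_of_ne hδε.ne, Function.update_self]

theorem bump_top (f : T Λ D) (δ ε : Λ) (p : ℚ × ℚ) :
    (bump f δ ε p).fn ε = p.2 := by
  rw [bump, T.fn_mk, Function.update_self]

theorem bump_agree {f y : T Λ D} {δ ε : Λ} (hδε : δ < ε) (hy : ∀ j < δ, y.fn j = f.fn j) (v : ℚ) :
    ∀ j ≤ δ, y.fn j = (bump f δ ε (y.fn δ, v)).fn j := by
  intro j hj
  rcases hj.eq_or_lt with rfl | h
  · rw [bump_mid f hδε]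
  · rw [bump_below f hδε _ h, hy j h]

theorem countable_cof_left [NoMaxOrder Λ] {A B : Set (T Λ D)} (hcut : IsCut A B)
    {f : T Λ D} (hfA : f ∈ A) {δ : Λ}
    (hδ : ∀ a ∈ A, ∀ b ∈ B, ¬ ∀ η ≤ δ, a.fn η = b.fn η)
    (hf : ∀ ξ < δ, ∃ b ∈ B, ∀ η ≤ ξ, b.fn η = f.fn η) : Order.cof A ≤ ℵ₀ := by
  obtain ⟨ε, hδε, hε⟩ := exists_next δ
  have hagree : ∀ y ∈ A, f ≤ y → ∀ j < δ, y.fn j = f.fn j := by
    intro y hy hfy
    by_contra hcon
    obtain ⟨i, hiδ, hi, hne⟩ := exists_first_below hcon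
    have hlt : f.fn i < y.fn i := by
      rcases lt_or_gt_of_ne hne with h | h
      · exact absurd (T.lt_iff.mpr ⟨i, hi, h⟩) (not_lt.mpr hfy)
      · exact h
    obtain ⟨b, hb, hb'⟩ := hf i hiδ
    refine absurd (hcut.lt y hy b hb) (not_lt.mpr (le_of_lt (T.lt_iff.mpr ⟨i, ?_, ?_⟩)))
    · intro j hj
      rw [hb' j hj.le, hi j hj]
    · rw [hb' i le_rfl]
      exact hlt
  have hmem : ∀ y ∈ A, f ≤ y → y < bump f δ ε (y.fn δ, y.fn ε + 1) ∧
      bump f δ ε (y.fn δ, y.fn ε + 1) ∈ A := by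
    intro y hy hfy
    have hag := hagree y hy hfy
    have h1 : y < bump f δ ε (y.fn δ, y.fn ε + 1) := by
      refine T.lt_iff.mpr ⟨ε, ?_, ?_⟩
      · intro j hj
        exact bump_agree hδε hag _ j (hε j hj)
      · rw [bump_top]
        linarith
    refine ⟨h1, ?_⟩
    rcases hcut.cover with hc | ⟨r, hrA, hrB, hc⟩
    · have : bump f δ ε (y.fn δ, y.fn ε + 1) ∈ A ∪ B := by rw [hc]; trivial
      rcases this with h | h
      · exact h
      · exact absurd (bump_agree hδε hag _) (hδ y hy _ h)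
    · have h2 : bump f δ ε (y.fn δ, y.fn ε + 1) ∈ A ∪ {r} ∪ B := by rw [hc]; trivial
      rcases h2 with (h | h) | h
      · exact h
      · exfalso
        have h3 : bump f δ ε (y.fn δ, y.fn ε + 1) < bump f δ ε (y.fn δ, y.fn ε + 2) := by
          refine T.lt_iff.mpr ⟨ε, ?_, ?_⟩
          · intro j hj
            rw [← bump_agree hδε hag _ j (hε j hj), ← bump_agree hδε hag _ j (hε j hj)]
          · rw [bump_top, bump_top]
            linarith
        have h4 : bump f δ ε (y.fn δ, y.fn ε + 1) = r := h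
        rw [h4] at h3
        have h5 : bump f δ ε (y.fn δ, y.fn ε + 2) ∈ A ∪ {r} ∪ B := by rw [hc]; trivial
        rcases h5 with (h5 | h5) | h5
        · exact absurd (hrA _ h5) (not_lt.mpr h3.le)
        · exact absurd (show bump f δ ε (y.fn δ, y.fn ε + 2) = r from h5) h3.ne'
        · exact absurd (bump_agree hδε hag _) (hδ y hy _ h5)
      · exact absurd (bump_agree hδε hag _) (hδ y hy _ h)
  have hcof : IsCofinal {x : A | ∃ p : ℚ × ℚ, x.1 = bump f δ ε p} := by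
    intro x
    rcases le_total f x.1 with h | h
    · obtain ⟨h1, h2⟩ := hmem x.1 x.2 h
      exact ⟨⟨_, h2⟩, ⟨_, rfl⟩, h1.le⟩
    · obtain ⟨h1, h2⟩ := hmem f hfA le_rfl
      exact ⟨⟨_, h2⟩, ⟨_, rfl⟩, h.trans h1.le⟩
  refine (Order.cof_le hcof).trans ?_
  rw [mk_le_aleph0_iff]
  have hch : ∀ x : {x : A | ∃ p : ℚ × ℚ, x.1 = bump f δ ε p}, ∃ p : ℚ × ℚ, x.1.1 = bump f δ ε p :=
    fun x => x.2
  choose g hg using hch
  refine Function.Injective.countable (f := g) ?_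
  intro x y hxy
  apply Subtype.ext
  apply Subtype.ext
  rw [hg x, hg y, hxy]

theorem countable_cof_right [NoMaxOrder Λ] {A B : Set (T Λ D)} (hcut : IsCut A B)
    {f : T Λ D} (hfB : f ∈ B) {δ : Λ}
    (hδ : ∀ a ∈ A, ∀ b ∈ B, ¬ ∀ η ≤ δ, a.fn η = b.fn η)
    (hf : ∀ ξ < δ, ∃ a ∈ A, ∀ η ≤ ξ, a.fn η = f.fn η) : Order.cof (OrderDual B) ≤ ℵ₀ := by
  obtain ⟨ε, hδε, hε⟩ := exists_next δ
  have hagree : ∀ y ∈ B, y ≤ f → ∀ j < δ, y.fn j = f.fn j := by
    intro y hy hfy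
    by_contra hcon
    obtain ⟨i, hiδ, hi, hne⟩ := exists_first_below hcon
    have hlt : y.fn i < f.fn i := by
      rcases lt_or_gt_of_ne hne with h | h
      · exact h
      · exact absurd (T.lt_iff.mpr ⟨i, fun j hj => (hi j hj).symm, h⟩) (not_lt.mpr hfy)
    obtain ⟨a, ha, ha'⟩ := hf i hiδ
    refine absurd (hcut.lt a ha y hy) (not_lt.mpr (le_of_lt (T.lt_iff.mpr ⟨i, ?_, ?_⟩)))
    · intro j hj
      rw [ha' j hj.le, hi j hj]
    · rw [ha' i le_rfl]
      exact hlt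
  have hmem : ∀ y ∈ B, y ≤ f → bump f δ ε (y.fn δ, y.fn ε - 1) < y ∧
      bump f δ ε (y.fn δ, y.fn ε - 1) ∈ B := by
    intro y hy hfy
    have hag := hagree y hy hfy
    have hbad : ∀ v : ℚ, bump f δ ε (y.fn δ, v) ∉ A := by
      intro v hv
      exact hδ _ hv y hy (fun j hj => (bump_agree hδε hag v j hj).symm)
    have h1 : bump f δ ε (y.fn δ, y.fn ε - 1) < y := by
      refine T.lt_iff.mpr ⟨ε, ?_, ?_⟩
      · intro j hj
        exact (bump_agree hδε hag _ j (hε j hj)).symm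
      · rw [bump_top]
        linarith
    refine ⟨h1, ?_⟩
    rcases hcut.cover with hc | ⟨r, hrA, hrB, hc⟩
    · have : bump f δ ε (y.fn δ, y.fn ε - 1) ∈ A ∪ B := by rw [hc]; trivial
      rcases this with h | h
      · exact absurd h (hbad _)
      · exact h
    · have h2 : bump f δ ε (y.fn δ, y.fn ε - 1) ∈ A ∪ {r} ∪ B := by rw [hc]; trivial
      rcases h2 with (h | h) | h
      · exact absurd h (hbad _)
      · exfalso
        have h3 : bump f δ ε (y.fn δ, y.fn ε - 2) < bump f δ ε (y.fn δ, y.fn ε - 1) := by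
          refine T.lt_iff.mpr ⟨ε, ?_, ?_⟩
          · intro j hj
            rw [← bump_agree hδε hag _ j (hε j hj), ← bump_agree hδε hag _ j (hε j hj)]
          · rw [bump_top, bump_top]
            linarith
        have h4 : bump f δ ε (y.fn δ, y.fn ε - 1) = r := h
        rw [h4] at h3
        have h5 : bump f δ ε (y.fn δ, y.fn ε - 2) ∈ A ∪ {r} ∪ B := by rw [hc]; trivial
        rcases h5 with (h5 | h5) | h5
        · exact absurd h5 (hbad _)
        · exact absurd (show bump f δ ε (y.fn δ, y.fn ε - 2) = r from h5) h3.ne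
        · exact absurd (hrB _ h5) (not_lt.mpr h3.le)
      · exact h
  have hcof : IsCofinal {x : Bᵒᵈ | ∃ p : ℚ × ℚ, (OrderDual.ofDual x).1 = bump f δ ε p} := by
    intro x
    rcases le_total (OrderDual.ofDual x).1 f with h | h
    · obtain ⟨h1, h2⟩ := hmem (OrderDual.ofDual x).1 (OrderDual.ofDual x).2 h
      exact ⟨OrderDual.toDual ⟨_, h2⟩, ⟨_, rfl⟩, h1.le⟩
    · obtain ⟨h1, h2⟩ := hmem f hfB le_rfl
      exact ⟨OrderDual.toDual ⟨_, h2⟩, ⟨_, rfl⟩, h1.le.trans h⟩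
  refine (Order.cof_le hcof).trans ?_
  rw [mk_le_aleph0_iff]
  have hch : ∀ x : {x : Bᵒᵈ | ∃ p : ℚ × ℚ, (OrderDual.ofDual x).1 = bump f δ ε p},
      ∃ p : ℚ × ℚ, (OrderDual.ofDual x.1).1 = bump f δ ε p := fun x => x.2
  choose g hg using hch
  refine Function.Injective.countable (f := g) ?_
  intro x y hxy
  apply Subtype.ext
  apply OrderDual.ofDual.injective
  apply Subtype.ext
  rw [hg x, hg y, hxy]


theorem agree_unique {a b a' b' : T Λ D} (hab' : a < b') (ha'b : a' < b) {ξ : Λ}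
    (h : ∀ η ≤ ξ, a.fn η = b.fn η) (h' : ∀ η ≤ ξ, a'.fn η = b'.fn η) :
    ∀ η ≤ ξ, a.fn η = a'.fn η := by
  by_contra hcon
  push Not at hcon
  obtain ⟨j₀, hj₀, hne⟩ := hcon
  obtain ⟨i, hi, hi'⟩ := exists_first (f := a.fn) (g := a'.fn) (fun h => hne (by rw [h]))
  have hiξ : i ≤ ξ := by
    by_contra hlt
    rw [not_le] at hlt
    exact hne (hi j₀ (hj₀.trans_lt hlt))
  rcases lt_or_gt_of_ne hi' with hlt | hlt
  · refine absurd ha'b (not_lt.mpr (le_of_lt (T.lt_iff.mpr ⟨i, ?_, ?_⟩)))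
    · intro j hj
      rw [← h j (hj.le.trans hiξ), hi j hj]
    · rw [← h i hiξ]
      exact hlt
  · refine absurd hab' (not_lt.mpr (le_of_lt (T.lt_iff.mpr ⟨i, ?_, ?_⟩)))
    · intro j hj
      rw [← h' j (hj.le.trans hiξ), hi j hj]
    · rw [← h' i hiξ]
      exact hlt

theorem mem_of_diag [NoMaxOrder Λ] (hΛ : ∀ n : ℕ, ℵ_ (n : Ordinal.{0}) < Order.cof Λ)
    {n : ℕ} (hn : n ≠ 0)
    (h : ((n : Ordinal.{0}), (n : Ordinal.{0})) ∈ cutCharacters (T Λ D)) : n ∈ D := by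
  classical
  obtain ⟨A, B, hcut, hA, hB⟩ := h
  set I : Set Λ := {ξ | ∃ a ∈ A, ∃ b ∈ B, ∀ η ≤ ξ, a.fn η = b.fn η} with hI
  have hlower : ∀ ξ ∈ I, ∀ η ≤ ξ, η ∈ I := by
    rintro ξ ⟨a, ha, b, hb, hab⟩ η hη
    exact ⟨a, ha, b, hb, fun j hj => hab j (hj.trans hη)⟩
  have hw : ∀ ξ : I, ∃ p : T Λ D × T Λ D, p.1 ∈ A ∧ p.2 ∈ B ∧ ∀ η ≤ ξ.1, p.1.fn η = p.2.fn η := by
    rintro ⟨ξ, a, ha, b, hb, hab⟩
    exact ⟨(a, b), ha, hb, hab⟩
  choose w hwA hwB hwab using hw
  set s : Λ → ℚ := fun ξ => if h : ξ ∈ I then (w ⟨ξ, h⟩).1.fn ξ else 0 with hs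
  have hsval : ∀ a ∈ A, ∀ b ∈ B, ∀ ξ, (∀ η ≤ ξ, a.fn η = b.fn η) → ∀ η ≤ ξ, a.fn η = s η := by
    intro a ha b hb ξ hab η hη
    have hηI : η ∈ I := ⟨a, ha, b, hb, fun j hj => hab j (hj.trans hη)⟩
    have h1 := agree_unique (ξ := η) (hcut.lt a ha _ (hwB ⟨η, hηI⟩))
      (hcut.lt _ (hwA ⟨η, hηI⟩) b hb) (fun j hj => hab j (hj.trans hη)) (hwab ⟨η, hηI⟩) η le_rfl
    rw [h1, hs]
    simp only [dif_pos hηI]
  have hwa : ∀ ξ : I, ∀ η ≤ ξ.1, (w ξ).1.fn η = s η := fun ξ =>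
    hsval _ (hwA ξ) _ (hwB ξ) ξ.1 (hwab ξ)
  have hwb : ∀ ξ : I, ∀ η ≤ ξ.1, (w ξ).2.fn η = s η := fun ξ η hη => by
    rw [← hwab ξ η hη, hwa ξ η hη]
  have hsoff : ∀ ξ, ξ ∉ I → s ξ = 0 := fun ξ h => by
    rw [hs]
    simp only [dif_neg h]
  have factA : ∀ a ∈ A, ∀ ξ ∈ I, (∀ η < ξ, a.fn η = s η) → a.fn ξ ≠ s ξ → a.fn ξ < s ξ := by
    intro a ha ξ hξ hag hne
    rcases lt_or_gt_of_ne hne with hlt | hlt
    · exact hlt
    · exfalso
      refine absurd (hcut.lt a ha _ (hwB ⟨ξ, hξ⟩)) (not_lt.mpr (le_of_lt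
        (T.lt_iff.mpr ⟨ξ, ?_, ?_⟩)))
      · intro j hj
        rw [hwb ⟨ξ, hξ⟩ j hj.le, hag j hj]
      · rw [hwb ⟨ξ, hξ⟩ ξ le_rfl]
        exact hlt
  have hltw : ∀ a : T Λ D, ∀ i : Λ, (∀ η < i, a.fn η = s η) → a.fn i < s i →
      ∀ ξ : I, i < ξ.1 → a < (w ξ).1 := by
    intro a i h1 h2 ξ hξ
    refine T.lt_iff.mpr ⟨i, ?_, ?_⟩
    · intro j hj
      rw [h1 j hj, hwa ξ j (hj.le.trans hξ.le)]
    · rw [hwa ξ i hξ.le]
      exact h2
  by_cases hsm : Small D s
  · exfalso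
    by_cases hIuniv : I = Set.univ
    · -- the agreement set is everything
      have hmemI : ∀ ξ, ξ ∈ I := fun ξ => by rw [hIuniv]; trivial
      have hsA : T.mk s hsm ∉ A := by
        intro hmem
        obtain ⟨a, ha, hlt⟩ := hcut.no_max _ hmem
        obtain ⟨i, hi1, hi2⟩ := T.lt_iff.mp hlt
        rw [T.fn_mk] at hi1 hi2
        have := factA a ha i (hmemI i) (fun j hj => (hi1 j hj).symm) hi2.ne'
        exact lt_asymm this hi2
      have hρ : ∀ x : A, ∃ i : Λ, (∀ j < i, x.1.fn j = s j) ∧ x.1.fn i < s i := by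
        intro x
        have hne : x.1.fn ≠ s := by
          intro h
          apply hsA
          have : T.mk s hsm = x.1 := T.ext h.symm
          rw [this]
          exact x.2
        obtain ⟨i, hi1, hi2⟩ := exists_first hne
        exact ⟨i, hi1, factA x.1 x.2 i (hmemI i) hi1 hi2⟩
      choose ρ hρ1 hρ2 using hρ
      have h1 : Order.cof A = Order.cof Λ := by
        refine cof_eq_of_maps (fun i => exists_gt i) ρ
          (fun ξ => ⟨(w ⟨ξ, hmemI ξ⟩).1, hwA ⟨ξ, hmemI ξ⟩⟩) ?_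
        intro x ξ hξ
        exact hltw x.1 (ρ x) (hρ1 x) (hρ2 x) ⟨ξ, hmemI ξ⟩ hξ
      have h2 := hΛ n
      rw [← h1, hA] at h2
      exact lt_irrefl _ h2
    · -- the agreement set is a proper initial segment
      have hne : Iᶜ.Nonempty := Set.nonempty_compl.mpr hIuniv
      set δ := wellFounded_lt.min Iᶜ hne with hδdef
      have hδ1 : δ ∉ I := wellFounded_lt.min_mem Iᶜ hne
      have hδ2 : ∀ ξ < δ, ξ ∈ I := by
        intro ξ hξ
        by_contra hcon
        exact wellFounded_lt.not_lt_min Iᶜ hcon hξ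
      have hδ3 : ∀ a ∈ A, ∀ b ∈ B, ¬ ∀ η ≤ δ, a.fn η = b.fn η :=
        fun a ha b hb hab => hδ1 ⟨a, ha, b, hb, hab⟩
      have hex : ∃ f : T Λ D, (f ∈ A ∨ f ∈ B) ∧ ∀ j < δ, f.fn j = s j := by
        let u : ℚ → T Λ D := fun q => T.mk (Function.update s δ q) (hsm.update δ q)
        have hu : ∀ q, ∀ j < δ, (u q).fn j = s j := by
          intro q j hj
          simp only [u, T.fn_mk, Function.update_of_ne hj.ne]
        have hune : u 0 ≠ u 1 := by
          intro h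
          have h2 : (u 0).fn δ = (u 1).fn δ := by rw [h]
          simp only [u, T.fn_mk, Function.update_self] at h2
          exact zero_ne_one h2
        rcases hcut.cover with hc | ⟨r, _, _, hc⟩
        · have : u 0 ∈ A ∪ B := by rw [hc]; trivial
          exact ⟨u 0, this, hu 0⟩
        · have h0 : u 0 ∈ A ∪ {r} ∪ B := by rw [hc]; trivial
          have h1 : u 1 ∈ A ∪ {r} ∪ B := by rw [hc]; trivial
          rcases h0 with (h0 | h0) | h0
          · exact ⟨u 0, Or.inl h0, hu 0⟩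
          · rcases h1 with (h1 | h1) | h1
            · exact ⟨u 1, Or.inl h1, hu 1⟩
            · exact absurd ((show u 0 = r from h0).trans (show u 1 = r from h1).symm) hune
            · exact ⟨u 1, Or.inr h1, hu 1⟩
          · exact ⟨u 0, Or.inr h0, hu 0⟩
      obtain ⟨f, hf, hfs⟩ := hex
      have hbig : ¬ ℵ_ (n : Ordinal.{0}) ≤ ℵ₀ := by
        rw [not_le, ← aleph_zero, aleph_lt_aleph]
        exact_mod_cast Nat.pos_of_ne_zero hn
      rcases hf with hf | hf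
      · apply hbig
        rw [← hA]
        refine countable_cof_left hcut hf hδ3 ?_
        intro ξ hξ
        refine ⟨(w ⟨ξ, hδ2 ξ hξ⟩).2, hwB _, ?_⟩
        intro η hη
        rw [hwb ⟨ξ, hδ2 ξ hξ⟩ η hη, hfs η (hη.trans_lt hξ)]
      · apply hbig
        rw [← hB]
        refine countable_cof_right hcut hf hδ3 ?_
        intro ξ hξ
        refine ⟨(w ⟨ξ, hδ2 ξ hξ⟩).1, hwA _, ?_⟩
        intro η hη
        rw [hwa ⟨ξ, hδ2 ξ hξ⟩ η hη, hfs η (hη.trans_lt hξ)]
  · -- the limit function is not in the chain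
    rw [Small] at hsm
    push Not at hsm
    obtain ⟨m, hmD, hm⟩ := hsm
    have hbadI : bad m s ⊆ I := by
      intro ξ hξ
      by_contra hcon
      rw [bad, Set.mem_ofPred_eq, hsoff ξ hcon] at hξ
      exact not_dvd_one m (by simpa using hξ)
    have hseg : ∀ i ∈ I, #(bad m s ∩ Set.Iic i : Set Λ) < ℵ_ (m : Ordinal.{0}) := by
      intro i hi
      refine lt_of_le_of_lt (Cardinal.mk_le_mk_of_subset ?_) ((w ⟨i, hi⟩).1.small m hmD)
      rintro ξ ⟨hξ1, hξ2⟩
      rw [bad, Set.mem_ofPred_eq, hwa ⟨i, hi⟩ ξ hξ2]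
      exact hξ1
    have hcof := cof_subset (I := I) (isRegular_aleph_nat m) (bad m s) hbadI hm hseg
    have hρ : ∀ x : A, ∃ i : I, (∀ j < i.1, x.1.fn j = s j) ∧ x.1.fn i < s i := by
      intro x
      have hnot : ¬ bad m s ⊆ bad m x.1.fn := by
        intro hsub
        exact absurd hm (not_le.mpr ((Cardinal.mk_le_mk_of_subset hsub).trans_lt
          (x.1.small m hmD)))
      have hne : x.1.fn ≠ s := by
        intro h
        apply hnot
        rw [h]
      obtain ⟨i, hi1, hi2⟩ := exists_first hne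
      have hiI : i ∈ I := by
        by_contra hcon
        apply hnot
        intro ξ hξ
        have hξI := hbadI hξ
        have hξi : ξ < i := by
          by_contra hle
          exact hcon (hlower ξ hξI i (not_lt.mp hle))
        rw [bad, Set.mem_ofPred_eq, hi1 ξ hξi]
        exact hξ
      exact ⟨⟨i, hiI⟩, hi1, factA x.1 x.2 i hiI hi1 hi2⟩
    choose ρ hρ1 hρ2 using hρ
    have h1 : Order.cof A = Order.cof I := by
      refine cof_eq_of_maps hcof.2 ρ (fun ξ => ⟨(w ξ).1, hwA ξ⟩) ?_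
      intro x ξ hξ
      exact hltw x.1 (ρ x).1 (hρ1 x) (hρ2 x) ξ hξ
    have h2 : ℵ_ (n : Ordinal.{0}) = ℵ_ (m : Ordinal.{0}) := by
      rw [← hA, h1, hcof.1]
    have h3 : n = m := by exact_mod_cast aleph.injective h2
    rw [h3]
    exact hmD

/-- For every set `D` of natural numbers there is a dense 2-homogeneous chain whose
diagonal characters `(n, n)` with `1 ≤ n < ω` are exactly those with `n ∈ D`. -/
theorem exists_realizable (D : Set ℕ) : ∃ C, Realizable (Set.Iio Ordinal.omega0) C ∧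
    ∀ n : ℕ, n ≠ 0 → (((n : Ordinal.{0}), (n : Ordinal.{0})) ∈ C ↔ n ∈ D) := by
  obtain ⟨Λ, _, _, hne, hcof, hiso⟩ := exists_index
  have hmax : NoMaxOrder Λ := by
    refine ⟨fun a => ?_⟩
    by_contra hcon
    push Not at hcon
    have h1 : IsCofinal ({a} : Set Λ) := fun x => ⟨a, rfl, hcon x⟩
    have h2 := (hcof 0).trans_le (Order.cof_le h1)
    rw [mk_singleton] at h2
    exact absurd ((one_lt_aleph0.trans_le (aleph0_le_aleph _)).trans h2) (lt_irrefl _)
  refine ⟨cutCharacters (T Λ D) ∩ Set.Iio Ordinal.omega0 ×ˢ Set.Iio Ordinal.omega0,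
    ⟨T Λ D, inferInstance, ?_, ⟨fun x y h => T.dense x y h⟩,
      fun a b c d hab hcd => T.twoHomogeneous hiso a b c d hab hcd, rfl⟩, ?_⟩
  · classical
    refine ⟨T.mk _ Small.zero, T.mk _ (Small.zero.update hne.some 1), ?_⟩
    intro h
    have h2 := congrArg (fun x : T Λ D => x.fn hne.some) h
    simp [T.fn_mk] at h2
  · intro n hn
    constructor
    · intro h
      exact mem_of_diag hcof hn h.1
    · intro h
      exact ⟨diag_of_mem hcof h, Ordinal.natCast_lt_omega0 n, Ordinal.natCast_lt_omega0 n⟩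

/-- There are uncountably many realizable subsets of `ω × ω`. -/
theorem result : ¬ {C | Realizable (Set.Iio Ordinal.omega0) C}.Countable := by
  intro hcount
  choose F hF hFD using exists_realizable
  have hinj : Function.Injective
      (fun E : Set ℕ => (⟨F (Nat.succ '' E), hF _⟩ :
        {C | Realizable (Set.Iio Ordinal.omega0) C})) := by
    intro E E' h
    have h1 : F (Nat.succ '' E) = F (Nat.succ '' E') := congrArg Subtype.val h
    ext n
    have h2 := hFD (Nat.succ '' E) (n + 1) (Nat.succ_ne_zero n)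
    have h3 := hFD (Nat.succ '' E') (n + 1) (Nat.succ_ne_zero n)
    rw [h1, h3] at h2
    simpa using h2.symm
  have : Countable {C | Realizable (Set.Iio Ordinal.omega0) C} := hcount
  have hc : Countable (Set ℕ) := hinj.countable
  obtain ⟨g, hg⟩ := exists_injective_nat (Set ℕ)
  exact Function.cantor_injective g hg

end Pool.Agent.Results.MP_e86704_lc.UncountablyManyRealizable
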